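import Pool.Agent.H817Z.HC5

universe u

/-- For every regular `lam` and fewer than `lam` colours, every colouring of the pairs of a set of
size `lam⁺` has a colour `k` and a set `A` of size `lam` on which the colour `k` graph is highly
connected. The case `lam = ℵ₁`, countably many colours, is `ℵ₂ →hc (ℵ₁)²_ω`. -/
theorem Pool.Agent.Results.MP_7bf93d_lc.AllRegular.result
    (lam : Cardinal.{u}) (hl : lam.IsRegular) (V C : Type u)
    (hV : Cardinal.mk V = Order.succ lam) (hC : Cardinal.mk C < lam) (c : Sym2 V → C) :
    ∃ (k : C) (A : Set V), Cardinal.mk A = lam ∧ ∀ Y : Set V, Y ⊆ A →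
      Cardinal.mk Y < Cardinal.mk A →
      ((SimpleGraph.fromEdgeSet {e | c e = k}).induce (A \ Y)).Connected :=
  Pool.Agent.H817Z.HC.final lam hl V C hV hC c
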